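import Pool.Agent.K4H52.AP.Main

/-!
# Local data of zeta at a zero, lower bounds for analytic functions, finitely many roots
-/

set_option autoImplicit false

open Complex Filter Topology Set

namespace Pool.Agent.K4H48.IR

open Pool.Agent.K4H52.AP

/-- zeta is not constant near a point different from `1` -/
theorem zeta_not_eventually {b p : ℂ} (hp : p ≠ 1) :
    ¬ ∀ᶠ z in 𝓝 p, riemannZeta z - b = 0 := by
  intro h
  obtain ⟨s, hs1, hs2⟩ := exists_large ‖b‖
  have hA : AnalyticOnNhd ℂ (fun z => riemannZeta z - b) ({1}ᶜ : Set ℂ) :=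
    fun z hz => (an_zeta hz).sub analyticAt_const
  have h0 := hA.eqOn_zero_of_preconnected_of_eventuallyEq_zero conn_compl hp h
    (show s ∈ ({1}ᶜ : Set ℂ) from hs1)
  have h1 : riemannZeta s = b := sub_eq_zero.1 h0
  rw [h1] at hs2
  exact lt_irrefl _ hs2

theorem local_data {b ρ : ℂ} (h1 : ρ ≠ 1) (h0 : riemannZeta ρ = b) :
    ∃ (k : ℕ) (χ g : ℂ → ℂ), 1 ≤ k ∧ AnalyticAt ℂ g 0 ∧ g 0 = ρ ∧
      (∀ᶠ s in 𝓝 ρ, riemannZeta s = b + χ s ^ k ∧ g (χ s) = s) ∧
      (∀ᶠ u in 𝓝 (0:ℂ), riemannZeta (g u) = b + u ^ k ∧ χ (g u) = u) := by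
  obtain ⟨k, χ, hk, hχ, hχ0, hχd, hev⟩ :=
    exists_root_normal_form (f := fun z => riemannZeta z - b) ((an_zeta h1).sub analyticAt_const)
      (by rw [h0, sub_self]) (zeta_not_eventually h1)
  have hev' : ∀ᶠ z in 𝓝 ρ, riemannZeta z = b + χ z ^ k := hev.mono fun z hz => by
    rw [← hz]; ring
  have hst : HasStrictDerivAt χ (deriv χ ρ) ρ := hχ.hasStrictDerivAt
  have h3 : AnalyticAt ℂ (hst.localInverse χ _ _ hχd) 0 := by
    have := hχ.analyticAt_localInverse hχd
    rw [hχ0] at this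
    exact this
  have h4 : hst.localInverse χ _ _ hχd 0 = ρ := by
    have : hst.localInverse χ _ _ hχd (χ ρ) = ρ := HasStrictFDerivAt.localInverse_apply_image ..
    rw [hχ0] at this
    exact this
  refine ⟨k, χ, hst.localInverse χ _ _ hχd, hk, h3, h4, ?_, ?_⟩
  · exact hev'.and (HasStrictDerivAt.eventually_left_inverse ..)
  · have h2 : ∀ᶠ u in 𝓝 (χ ρ), χ (hst.localInverse χ _ _ hχd u) = u :=
      HasStrictDerivAt.eventually_right_inverse ..
    rw [hχ0] at h2
    have h5 : Tendsto (hst.localInverse χ _ _ hχd) (𝓝 0) (𝓝 ρ) := by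
      have := h3.continuousAt.tendsto
      rwa [h4] at this
    filter_upwards [h2, h5.eventually hev'] with u hu hu2
    exact ⟨by rw [hu2, hu], hu⟩

/-- An analytic function which is not identically zero near `0` is bounded below by a power. -/
theorem lower {h : ℂ → ℂ} (hh : AnalyticAt ℂ h 0) (hne : ¬ ∀ᶠ t in 𝓝 (0:ℂ), h t = 0) :
    ∃ j : ℕ, ∀ t : ℝ, 0 < t → t < 1 / (j + 1) → t ^ j / (j + 1) ≤ ‖h t‖ := by
  obtain ⟨k, g, hg, hg0, hfg⟩ := hh.exists_eventuallyEq_pow_smul_nonzero_iff.2 hne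
  have hpos : 0 < ‖g 0‖ := norm_pos_iff.2 hg0
  have h1 : ∀ᶠ t in 𝓝 (0:ℂ), ‖g 0‖ / 2 < ‖g t‖ :=
    hg.continuousAt.norm.eventually_const_lt (half_lt_self hpos)
  obtain ⟨ε, hε, hball⟩ := Metric.eventually_nhds_iff.1 (hfg.and h1)
  obtain ⟨a, ha⟩ := exists_nat_one_div_lt hε
  obtain ⟨b, hb⟩ := exists_nat_one_div_lt (half_pos hpos)
  refine ⟨max k (max a b), fun t ht0 ht1 => ?_⟩
  set j := max k (max a b) with hj
  have hkj : k ≤ j := le_max_left _ _
  have haj : (a : ℝ) ≤ j := by exact_mod_cast (le_max_left a b).trans (le_max_right k _)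
  have hbj : (b : ℝ) ≤ j := by exact_mod_cast (le_max_right a b).trans (le_max_right k _)
  have hj0 : (0:ℝ) ≤ j := Nat.cast_nonneg j
  have ha0 : (0:ℝ) ≤ a := Nat.cast_nonneg a
  have hb0 : (0:ℝ) ≤ b := Nat.cast_nonneg b
  have ht2 : t ≤ 1 := by
    refine ht1.le.trans ?_
    rw [div_le_one (by positivity)]
    linarith
  have htε : t < ε := by
    refine ht1.trans_le (le_trans ?_ ha.le)
    exact one_div_le_one_div_of_le (by positivity) (by linarith)
  obtain ⟨h2, h3⟩ := hball (y := (t : ℂ)) (by simpa [abs_of_pos ht0] using htε)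
  rw [h2, smul_eq_mul, norm_mul, norm_pow, sub_zero, Complex.norm_real, Real.norm_of_nonneg ht0.le]
  have h4 : t ^ j ≤ t ^ k := pow_le_pow_of_le_one ht0.le ht2 hkj
  have h5 : 1 / ((j:ℝ) + 1) ≤ ‖g t‖ := by
    refine le_trans ?_ h3.le
    refine le_trans ?_ hb.le
    exact one_div_le_one_div_of_le (by positivity) (by linarith)
  calc t ^ j / (j + 1) = t ^ j * (1 / (j + 1)) := by ring
    _ ≤ t ^ k * ‖g t‖ := mul_le_mul h4 h5 (by positivity) (by positivity)

theorem lower_mono {x : ℝ} {t : ℝ} {j j' : ℕ} (hjj : j ≤ j')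
    (h : 0 < t → t < 1 / (j + 1) → t ^ j / (j + 1) ≤ x) (h0 : 0 < t) (h1 : t < 1 / (j' + 1)) :
    t ^ j' / (j' + 1) ≤ x := by
  have hj : (j : ℝ) ≤ j' := by exact_mod_cast hjj
  have hj0 : (0:ℝ) ≤ j := Nat.cast_nonneg j
  have ht2 : t ≤ 1 := by
    refine h1.le.trans ?_
    rw [div_le_one (by positivity)]
    linarith
  refine le_trans ?_ (h h0 (h1.trans_le (one_div_le_one_div_of_le (by positivity) (by linarith))))
  have h4 : t ^ j' ≤ t ^ j := pow_le_pow_of_le_one h0.le ht2 hjj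
  exact div_le_div₀ (by positivity) h4 (by positivity) (by linarith)

theorem finite_roots {k : ℕ} (hk : 1 ≤ k) (σ : ℂ) : {z : ℂ | z ^ k = σ}.Finite := by
  refine (Polynomial.nthRoots k σ).toFinset.finite_toSet.subset ?_
  intro z hz
  simp only [Finset.mem_coe, Multiset.mem_toFinset]
  exact (Polynomial.mem_nthRoots (by omega)).2 hz

theorem finite_omega {n : ℕ} {k : Fin n → ℕ} (hk : ∀ i, 1 ≤ k i) (σ : ℂ) :
    {ω : Fin n → ℂ | ∀ i, ω i ^ k i = σ}.Finite :=
  Set.Finite.pi' fun i => finite_roots (hk i) σ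

/-- the algebraic independence theorem for a finite index type -/
theorem thmA2_fintype {ι : Type} [Fintype ι] (U : Set ℂ) (s : ι → ℂ → ℂ)
    (Q : MvPolynomial (Option ι) ℂ) (hU : IsOpen U) (hne : U.Nonempty) (hB : Branches U s)
    (hQ : ∀ a ∈ U, MvPolynomial.eval (fun o : Option ι => o.elim a (fun i => s i a)) Q = 0) :
    Q = 0 := by
  classical
  let e : ι ≃ Fin (Fintype.card ι) := Fintype.equivFin ι
  have h := thmA2_main (Fintype.card ι) U (fun j => s (e.symm j))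
    (MvPolynomial.rename (Option.map e) Q) hU hne
    ⟨fun j => hB.diff _, fun j => hB.ne_one _, fun j => hB.zeta _,
      fun a ha => (hB.inj a ha).comp e.symm.injective⟩ (by
    intro a ha
    rw [MvPolynomial.eval_rename]
    convert hQ a ha using 3
    funext o
    cases o with
    | none => rfl
    | some i => simp)
  exact MvPolynomial.rename_injective _ (Option.map_injective e.injective) (by rw [h, map_zero])

/-- Independence in a uniformizing parameter: functions `F i` of a small `t ≠ 0` with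
`zeta (F i t) = b + σ t ^ N` and different values. -/
theorem indep {ι : Type} [Fintype ι] {b σ : ℂ} (hσC : σ ≠ 0) {N : ℕ} (hN : 1 ≤ N) {ε : ℝ}
    (hε : 0 < ε) {F : ι → ℂ → ℂ}
    (hd : ∀ t : ℂ, t ≠ 0 → ‖t‖ < ε → ∀ i, DifferentiableAt ℂ (F i) t)
    (h1 : ∀ t : ℂ, t ≠ 0 → ‖t‖ < ε → ∀ i, F i t ≠ 1)
    (hz : ∀ t : ℂ, t ≠ 0 → ‖t‖ < ε → ∀ i, riemannZeta (F i t) = b + σ * t ^ N)
    (hinj : ∀ t : ℂ, t ≠ 0 → ‖t‖ < ε → Function.Injective (fun i => F i t))
    {Q : MvPolynomial (Option ι) ℂ}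
    (hQ : ∀ t : ℂ, t ≠ 0 → ‖t‖ < ε →
      MvPolynomial.eval (fun o : Option ι => o.elim (b + σ * t ^ N) (fun i => F i t)) Q = 0) :
    Q = 0 := by
  set t₀ : ℂ := ((ε / 2 : ℝ) : ℂ) with ht₀
  have ht₀0 : t₀ ≠ 0 := by
    rw [ht₀]
    exact_mod_cast (half_pos hε).ne'
  have ht₀ε : ‖t₀‖ < ε := by
    rw [ht₀, Complex.norm_real, Real.norm_of_nonneg (half_pos hε).le]
    exact half_lt_self hε
  have hNC : (N : ℂ) ≠ 0 := by exact_mod_cast (by omega : N ≠ 0)
  set a₀ : ℂ := σ * t₀ ^ N with ha₀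
  have ha₀0 : a₀ ≠ 0 := mul_ne_zero hσC (pow_ne_zero _ ht₀0)
  set T : ℂ → ℂ := fun a => t₀ * Complex.exp (Complex.log ((a - b) / a₀) / N) with hT
  have hT0 : ∀ a, T a ≠ 0 := fun a => mul_ne_zero ht₀0 (Complex.exp_ne_zero _)
  have hTN : ∀ a, (a - b) / a₀ ∈ slitPlane → b + σ * T a ^ N = a := by
    intro a ha
    rw [hT]
    simp only
    rw [mul_pow, ← Complex.exp_nat_mul, mul_div_cancel₀ _ hNC,
      Complex.exp_log (Complex.slitPlane_ne_zero ha), ← mul_assoc, ← ha₀,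
      mul_div_cancel₀ _ ha₀0]
    ring
  have hTd : ∀ a, (a - b) / a₀ ∈ slitPlane → DifferentiableAt ℂ T a := by
    intro a ha
    have h1 : DifferentiableAt ℂ (fun a => (a - b) / a₀) a := by fun_prop
    exact ((h1.clog ha).div_const _).cexp.const_mul _
  set U : Set ℂ := {a | (a - b) / a₀ ∈ slitPlane} ∩ T ⁻¹' Metric.ball 0 ε with hU
  have hSo : IsOpen {a : ℂ | (a - b) / a₀ ∈ slitPlane} :=
    isOpen_slitPlane.preimage (by fun_prop : Continuous fun a : ℂ => (a - b) / a₀)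
  have hUo : IsOpen U := by
    refine ContinuousOn.isOpen_inter_preimage (fun a ha => ?_) hSo Metric.isOpen_ball
    exact (hTd a ha).continuousAt.continuousWithinAt
  have hUne : U.Nonempty := by
    refine ⟨b + a₀, ?_, ?_⟩
    · change (b + a₀ - b) / a₀ ∈ slitPlane
      rw [add_sub_cancel_left, div_self ha₀0]
      exact one_mem_slitPlane
    · change T (b + a₀) ∈ Metric.ball 0 ε
      rw [hT]
      simp only [add_sub_cancel_left, div_self ha₀0, Complex.log_one, zero_div, Complex.exp_zero,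
        mul_one, Metric.mem_ball, dist_zero_right]
      exact ht₀ε
  have hUb : ∀ a ∈ U, ‖T a‖ < ε := fun a ha => by simpa using ha.2
  have hB : Branches U (fun i a => F i (T a)) := by
    refine ⟨fun i a ha => ?_, fun i a ha => h1 _ (hT0 a) (hUb a ha) i, fun i a ha => ?_,
      fun a ha => hinj _ (hT0 a) (hUb a ha)⟩
    · refine DifferentiableAt.differentiableWithinAt ?_
      exact DifferentiableAt.comp (𝕜 := ℂ) a (hd _ (hT0 a) (hUb a ha) i) (hTd a ha.1)
    · rw [hz _ (hT0 a) (hUb a ha) i]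
      exact hTN a ha.1
  refine thmA2_fintype U (fun i a => F i (T a)) Q hUo hUne hB fun a ha => ?_
  have h2 := hQ (T a) (hT0 a) (hUb a ha)
  rwa [hTN a ha.1] at h2

end Pool.Agent.K4H48.IR
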