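import Pool.Agent.K4H48.IR.Local

/-!
# Small real changes of the value zero destroy every relation between zeros
-/

set_option autoImplicit false

open Complex Filter Topology Set
open scoped ComplexConjugate

namespace Pool.Agent.K4H48.IR

open Pool.Agent.K4H52.AP

theorem aeval_ofReal {ι : Type} (y : ι → ℝ) (P : MvPolynomial ι ℝ) :
    MvPolynomial.aeval (fun o => (y o : ℂ)) P = ((MvPolynomial.eval y P : ℝ) : ℂ) := by
  induction P using MvPolynomial.induction_on with
  | C r => simp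
  | add p q hp hq => simp [hp, hq]
  | mul_X p i hp => simp [hp]

theorem eval_aeval {ι κ : Type} (x : κ → ℂ) (sub : ι → MvPolynomial κ ℂ) (P : MvPolynomial ι ℝ) :
    MvPolynomial.eval x (MvPolynomial.aeval sub P) =
      MvPolynomial.aeval (fun o => MvPolynomial.eval x (sub o)) P := by
  induction P using MvPolynomial.induction_on with
  | C r =>
    simp only [MvPolynomial.algHom_C]
    rw [IsScalarTower.algebraMap_apply ℝ ℂ (MvPolynomial κ ℂ)]
    simp
  | add p q hp hq => simp [hp, hq]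
  | mul_X p i hp => simp [hp]

variable {n : ℕ}

/-- the branches in the uniformizing parameter `t` -/
noncomputable def Br (g : Fin n → ℂ → ℂ) (ω : Fin n → ℂ) (m : Fin n → ℕ) (p : Fin n × Bool)
    (t : ℂ) : ℂ :=
  if p.2 then g p.1 (ω p.1 * t ^ m p.1) else conj (g p.1 (ω p.1 * (conj t) ^ m p.1))

/-- the value and the real and imaginary parts -/
noncomputable def Pt (b σ : ℂ) (N : ℕ) (g : Fin n → ℂ → ℂ) (ω : Fin n → ℂ) (m : Fin n → ℕ) (t : ℂ)
    (o : Option (Fin n × Bool)) : ℂ :=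
  o.elim (b + σ * t ^ N) (fun p => if p.2 then (Br g ω m (p.1, true) t + Br g ω m (p.1, false) t) / 2
    else (Br g ω m (p.1, true) t - Br g ω m (p.1, false) t) / (2 * I))

theorem Pt_real {b σ : ℝ} {N : ℕ} {g : Fin n → ℂ → ℂ} {ω : Fin n → ℂ} {m : Fin n → ℕ} (t : ℝ) :
    Pt b σ N g ω m t = fun o : Option (Fin n × Bool) => ((o.elim (b + σ * t ^ N) (fun p =>
      if p.2 then (g p.1 (ω p.1 * t ^ m p.1)).re else (g p.1 (ω p.1 * t ^ m p.1)).im) : ℝ) : ℂ) := by
  funext o
  rcases o with _ | ⟨i, b⟩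
  · simp [Pt]
  · cases b
    · simp only [Pt, Br, Option.elim_some, Bool.false_eq_true, if_false, if_true,
        Complex.conj_ofReal]
      rw [Complex.sub_conj]
      push_cast
      field_simp
    · simp only [Pt, Br, Option.elim_some, Bool.false_eq_true, if_false, if_true,
        Complex.conj_ofReal]
      rw [Complex.add_conj]
      push_cast
      field_simp

theorem tendsto_mono {m : ℕ} (hm : 1 ≤ m) (w : ℂ) :
    Tendsto (fun t : ℂ => w * t ^ m) (𝓝 0) (𝓝 0) := by
  have : Continuous (fun t : ℂ => w * t ^ m) := by fun_prop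
  have h := this.tendsto 0
  rwa [zero_pow (by omega), mul_zero] at h

theorem analyticAt_G {g : ℂ → ℂ} {w : ℂ} {m : ℕ} {t : ℂ} (hg : AnalyticAt ℂ g (w * t ^ m)) :
    AnalyticAt ℂ (fun t : ℂ => g (w * t ^ m)) t := by
  have h1 : AnalyticAt ℂ (fun t : ℂ => w * t ^ m) t := by fun_prop
  exact AnalyticAt.fun_comp (f := fun t : ℂ => w * t ^ m) hg h1

theorem diff_conj {G : ℂ → ℂ} {t : ℂ} (h : DifferentiableAt ℂ G (conj t)) :
    DifferentiableAt ℂ (fun t => conj (G (conj t))) t := by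
  have := h.conj_conj
  rw [Complex.conj_conj] at this
  exact this

theorem analyticAt_Br {g : Fin n → ℂ → ℂ} (hg : ∀ i, AnalyticAt ℂ (g i) 0) (ω : Fin n → ℂ)
    {m : Fin n → ℕ} (hm : ∀ i, 1 ≤ m i) (p : Fin n × Bool) : AnalyticAt ℂ (Br g ω m p) 0 := by
  have h1 : ∀ᶠ t in 𝓝 (0:ℂ), AnalyticAt ℂ (g p.1) (ω p.1 * t ^ m p.1) :=
    (tendsto_mono (hm p.1) (ω p.1)).eventually (hg p.1).eventually_analyticAt
  obtain ⟨i, b⟩ := p
  cases b
  · obtain ⟨ε, hε, hb⟩ := Metric.eventually_nhds_iff.1 h1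
    have h2 : ∀ᶠ t in 𝓝 (0:ℂ), DifferentiableAt ℂ (Br g ω m (i, false)) t := by
      rw [Metric.eventually_nhds_iff]
      refine ⟨ε, hε, fun t ht => ?_⟩
      have h3 := (analyticAt_G (hb (y := conj t) (by
        rw [dist_zero_right, RCLike.norm_conj]; rwa [dist_zero_right] at ht))).differentiableAt
      exact diff_conj h3
    exact (Complex.analyticAt_iff_eventually_differentiableAt).2 h2
  · exact analyticAt_G h1.self_of_nhds

theorem analyticAt_Pt (b σ : ℂ) (N : ℕ) {g : Fin n → ℂ → ℂ} (hg : ∀ i, AnalyticAt ℂ (g i) 0)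
    (ω : Fin n → ℂ) {m : Fin n → ℕ} (hm : ∀ i, 1 ≤ m i) (o : Option (Fin n × Bool)) :
    AnalyticAt ℂ (fun t => Pt b σ N g ω m t o) 0 := by
  rcases o with _ | ⟨i, c⟩
  · change AnalyticAt ℂ (fun t => b + σ * t ^ N) 0
    fun_prop
  · cases c
    · exact ((analyticAt_Br hg ω hm _).sub (analyticAt_Br hg ω hm _)).div_const
    · exact ((analyticAt_Br hg ω hm _).add (analyticAt_Br hg ω hm _)).div_const

/-- the substitution -/
noncomputable def sub (o : Option (Fin n × Bool)) : MvPolynomial (Option (Fin n × Bool)) ℂ :=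
  o.elim (MvPolynomial.X none) (fun p => if p.2 then
    MvPolynomial.C (1 / 2) * (MvPolynomial.X (some (p.1, true)) + MvPolynomial.X (some (p.1, false)))
    else MvPolynomial.C (1 / (2 * I)) *
      (MvPolynomial.X (some (p.1, true)) - MvPolynomial.X (some (p.1, false))))

theorem eval_sub (x : Option (Fin n × Bool) → ℂ) (o : Option (Fin n × Bool)) :
    MvPolynomial.eval x (sub o) = o.elim (x none) (fun p => if p.2 then
      (x (some (p.1, true)) + x (some (p.1, false))) / 2 else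
      (x (some (p.1, true)) - x (some (p.1, false))) / (2 * I)) := by
  rcases o with _ | ⟨i, b⟩
  · simp [sub]
  · cases b
    · simp only [sub, Option.elim_some, Bool.false_eq_true, if_false, map_mul,
        MvPolynomial.eval_C, map_sub, MvPolynomial.eval_X]
      ring
    · simp only [sub, Option.elim_some, if_true, map_mul,
        MvPolynomial.eval_C, map_add, MvPolynomial.eval_X]
      ring

theorem not_ev {b : ℝ} {k m : Fin n → ℕ} {N : ℕ} (hN : 1 ≤ N) (hm : ∀ i, 1 ≤ m i)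
    (hkm : ∀ i, m i * k i = N) {g : Fin n → ℂ → ℂ} (hg : ∀ i, AnalyticAt ℂ (g i) 0)
    {ρ : Fin n → ℂ} (hg0 : ∀ i, g i 0 = ρ i)
    (him : ∀ i, 0 < (ρ i).im) (hz : ∀ i, ∀ᶠ u in 𝓝 (0:ℂ), riemannZeta (g i u) = b + u ^ k i)
    {σ : ℝ} (hσ : σ ≠ 0) {ω : Fin n → ℂ} (hω : ∀ i, ω i ^ k i = σ)
    (hdist : ∀ i j, i ≠ j → ∀ᶠ t in 𝓝 (0:ℂ), t ≠ 0 →
      g i (ω i * t ^ m i) ≠ g j (ω j * t ^ m j))
    {P : MvPolynomial (Option (Fin n × Bool)) ℝ} (hP : P ≠ 0) :
    ¬ ∀ᶠ t in 𝓝 (0:ℂ), MvPolynomial.aeval (Pt b σ N g ω m t) P = 0 := by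
  intro hev
  have hG : ∀ i, Tendsto (fun t : ℂ => g i (ω i * t ^ m i)) (𝓝 0) (𝓝 (ρ i)) := by
    intro i
    have h1 := (hg i).continuousAt.tendsto
    rw [hg0 i] at h1
    exact h1.comp (tendsto_mono (hm i) (ω i))
  have e1 : ∀ᶠ t in 𝓝 (0:ℂ), ∀ i, AnalyticAt ℂ (g i) (ω i * t ^ m i) :=
    eventually_all.2 fun i => (tendsto_mono (hm i) (ω i)).eventually (hg i).eventually_analyticAt
  have e2 : ∀ᶠ t in 𝓝 (0:ℂ), ∀ i, riemannZeta (g i (ω i * t ^ m i)) = b + (ω i * t ^ m i) ^ k i :=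
    eventually_all.2 fun i => (tendsto_mono (hm i) (ω i)).eventually (hz i)
  have e3 : ∀ᶠ t in 𝓝 (0:ℂ), ∀ i, 0 < (g i (ω i * t ^ m i)).im :=
    eventually_all.2 fun i => ((Complex.continuous_im.tendsto _).comp (hG i)).eventually
      (lt_mem_nhds (him i))
  have e4 : ∀ᶠ t in 𝓝 (0:ℂ), ∀ i j, i ≠ j → t ≠ 0 →
      g i (ω i * t ^ m i) ≠ g j (ω j * t ^ m j) := by
    refine eventually_all.2 fun i => eventually_all.2 fun j => ?_
    by_cases hij : i = j
    · exact Eventually.of_forall fun t h => absurd hij h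
    · exact (hdist i j hij).mono fun t ht _ => ht
  obtain ⟨ε, hε, hb⟩ := Metric.eventually_nhds_iff.1
    ((((e1.and e2).and e3).and e4).and hev)
  simp only [dist_zero_right] at hb
  have hσC : (σ : ℂ) ≠ 0 := by exact_mod_cast hσ
  have hcn : ∀ t : ℂ, ‖t‖ < ε → ‖conj t‖ < ε := fun t ht => by rwa [RCLike.norm_conj]
  have hc0 : ∀ t : ℂ, t ≠ 0 → conj t ≠ 0 := fun t ht => by
    intro h; exact ht ((map_eq_zero (starRingEnd ℂ)).1 h)
  have hpow : ∀ (i : Fin n) (t : ℂ), (ω i * t ^ m i) ^ k i = σ * t ^ N := by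
    intro i t
    rw [mul_pow, hω i, ← pow_mul, hkm i]
  have hQ := indep (b := (b : ℂ)) hσC hN hε (F := Br g ω m) (Q := MvPolynomial.aeval sub P)
    (by
      rintro t ht0 ht ⟨i, c⟩
      cases c
      · exact diff_conj (analyticAt_G ((hb (hcn t ht)).1.1.1.1 i)).differentiableAt
      · exact (analyticAt_G ((hb ht).1.1.1.1 i)).differentiableAt)
    (by
      rintro t ht0 ht ⟨i, c⟩ h
      cases c
      · have h1 := (hb (hcn t ht)).1.1.2 i
        have h2 : conj (g i (ω i * (conj t) ^ m i)) = 1 := h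
        have h3 := congrArg Complex.im h2
        rw [Complex.conj_im, Complex.one_im] at h3
        linarith
      · have h1 := (hb ht).1.1.2 i
        have h2 : g i (ω i * t ^ m i) = 1 := h
        rw [h2, Complex.one_im] at h1
        exact absurd h1 (lt_irrefl _))
    (by
      rintro t ht0 ht ⟨i, c⟩
      cases c
      · change riemannZeta (conj (g i (ω i * (conj t) ^ m i))) = _
        rw [riemannZeta_conj, (hb (hcn t ht)).1.1.1.2 i, hpow, map_add, map_mul,
          Complex.conj_ofReal, Complex.conj_ofReal, map_pow, Complex.conj_conj]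
      · change riemannZeta (g i (ω i * t ^ m i)) = _
        rw [(hb ht).1.1.1.2 i, hpow])
    (by
      rintro t ht0 ht ⟨i, c⟩ ⟨j, c'⟩ h
      have hc := hb (hcn t ht)
      have ht' := hb ht
      cases c <;> cases c'
      · have h2 : conj (g i (ω i * (conj t) ^ m i)) = conj (g j (ω j * (conj t) ^ m j)) := h
        have h3 := (starRingEnd ℂ).injective h2
        by_contra hne
        exact hc.1.2 i j (fun hij => hne (by rw [hij])) (hc0 t ht0) h3
      · have h2 : conj (g i (ω i * (conj t) ^ m i)) = g j (ω j * t ^ m j) := h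
        have h3 := congrArg Complex.im h2
        rw [Complex.conj_im] at h3
        have h4 := hc.1.1.2 i
        have h5 := ht'.1.1.2 j
        linarith
      · have h2 : g i (ω i * t ^ m i) = conj (g j (ω j * (conj t) ^ m j)) := h
        have h3 := congrArg Complex.im h2
        rw [Complex.conj_im] at h3
        have h4 := hc.1.1.2 j
        have h5 := ht'.1.1.2 i
        linarith
      · have h2 : g i (ω i * t ^ m i) = g j (ω j * t ^ m j) := h
        by_contra hne
        exact ht'.1.2 i j (fun hij => hne (by rw [hij])) ht0 h2)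
    (by
      intro t ht0 ht
      rw [eval_aeval]
      have h1 := (hb ht).2
      rw [← h1]
      congr 2
      funext o
      rw [eval_sub]
      rcases o with _ | ⟨i, c⟩
      · simp only [Option.elim_none, Pt]
      · cases c <;> simp [Pt])
  apply hP
  refine MvPolynomial.funext fun y => ?_
  rw [map_zero]
  have h1 : ∀ x : Option (Fin n × Bool) → ℂ,
      MvPolynomial.aeval (fun o => MvPolynomial.eval x (sub o)) P = 0 := by
    intro x
    rw [← eval_aeval, hQ, map_zero]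
  have h2 := h1 (fun o => o.elim (y none : ℂ) (fun p => if p.2 then
    (y (some (p.1, true)) : ℂ) + I * y (some (p.1, false)) else
    (y (some (p.1, true)) : ℂ) - I * y (some (p.1, false))))
  have h3 : (fun o => MvPolynomial.eval (fun o : Option (Fin n × Bool) =>
      o.elim (y none : ℂ) (fun p => if p.2 then
    (y (some (p.1, true)) : ℂ) + I * y (some (p.1, false)) else
    (y (some (p.1, true)) : ℂ) - I * y (some (p.1, false)))) (sub o)) = fun o => (y o : ℂ) := by
    funext o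
    rw [eval_sub]
    rcases o with _ | ⟨i, b⟩
    · rfl
    · cases b
      · simp only [Option.elim_some, Bool.false_eq_true, if_false, if_true]
        field_simp
        ring
      · simp only [Option.elim_some, Bool.false_eq_true, if_false, if_true]
        ring
  rw [h3, aeval_ofReal] at h2
  exact_mod_cast h2

/-- The local theorem: near a tuple of points with the real value `b`. -/
theorem isolated_local {b : ℝ} {ρ : Fin n → ℂ}
    (h : ∀ i, 0 < (ρ i).im ∧ riemannZeta (ρ i) = b)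
    {P : MvPolynomial (Option (Fin n × Bool)) ℝ} (hP : P ≠ 0) :
    ∃ (ε c : ℝ) (κ : ℕ), 0 < ε ∧ 0 < c ∧ ∀ a : ℝ, a ≠ b → |a - b| < ε → ∀ s : Fin n → ℂ,
      Function.Injective s → (∀ i, ‖s i - ρ i‖ < ε ∧ riemannZeta (s i) = a) →
      c * |a - b| ^ κ ≤ |MvPolynomial.eval (fun o : Option (Fin n × Bool) =>
        o.elim a (fun p => if p.2 then (s p.1).re else (s p.1).im)) P| := by
  have hne1 : ∀ p : {p : ℂ // 0 < p.im ∧ riemannZeta p = b}, (p : ℂ) ≠ 1 := by
    intro p hi
    have := p.2.1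
    rw [hi, Complex.one_im] at this
    exact lt_irrefl _ this
  choose k' χ' g' hk' hga' hg0' hχ' hz' using
    fun p : {p : ℂ // 0 < p.im ∧ riemannZeta p = b} => local_data (hne1 p) p.2.2
  set q : Fin n → {p : ℂ // 0 < p.im ∧ riemannZeta p = b} := fun i => ⟨ρ i, h i⟩ with hq
  set k : Fin n → ℕ := fun i => k' (q i) with hkdef
  set χ : Fin n → ℂ → ℂ := fun i => χ' (q i) with hχdef
  set g : Fin n → ℂ → ℂ := fun i => g' (q i) with hgdef
  have hk : ∀ i, 1 ≤ k i := fun i => hk' _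
  have hga : ∀ i, AnalyticAt ℂ (g i) 0 := fun i => hga' _
  have hg0 : ∀ i, g i 0 = ρ i := fun i => hg0' _
  have hχ : ∀ i, ∀ᶠ s in 𝓝 (ρ i), riemannZeta s = b + χ i s ^ k i ∧ g i (χ i s) = s :=
    fun i => hχ' (q i)
  have hz : ∀ i, ∀ᶠ u in 𝓝 (0:ℂ), riemannZeta (g i u) = b + u ^ k i ∧ χ i (g i u) = u :=
    fun i => hz' (q i)
  set N : ℕ := ∏ i, k i with hN
  have hN1 : 1 ≤ N := Nat.one_le_iff_ne_zero.2 (Finset.prod_ne_zero_iff.2 fun i _ => by
    have := hk i; omega)
  set m : Fin n → ℕ := fun i => N / k i with hmdef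
  have hkm : ∀ i, m i * k i = N := fun i =>
    Nat.div_mul_cancel (Finset.dvd_prod_of_mem k (Finset.mem_univ i))
  have hm : ∀ i, 1 ≤ m i := by
    intro i
    rcases Nat.eq_zero_or_pos (m i) with h0 | h0
    · have := hkm i
      rw [h0, zero_mul] at this
      omega
    · exact h0
  -- two different systems of roots give different points
  have hsep : ∀ ω : Fin n → ℂ, (∀ i j, i ≠ j → ρ i = ρ j → ω i ≠ ω j) →
      ∀ i j, i ≠ j → ∀ᶠ t in 𝓝 (0:ℂ), t ≠ 0 → g i (ω i * t ^ m i) ≠ g j (ω j * t ^ m j) := by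
    intro ω hω i j hij
    by_cases hρ : ρ i = ρ j
    · have hqq : q i = q j := Subtype.ext hρ
      have hgg : g i = g j := by rw [hgdef]; simp only [hqq]
      have hχχ : χ i = χ j := by rw [hχdef]; simp only [hqq]
      have hkk : k i = k j := by rw [hkdef]; simp only [hqq]
      have hmm : m i = m j := by rw [hmdef]; simp only [hkk]
      filter_upwards [(tendsto_mono (hm i) (ω i)).eventually (hz i),
        (tendsto_mono (hm j) (ω j)).eventually (hz j)] with t h1 h2 ht0 hcon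
      have h3 := congrArg (χ i) hcon
      rw [h1.2, hχχ, h2.2, hmm] at h3
      exact hω i j hij hρ (mul_right_cancel₀ (pow_ne_zero _ ht0) h3)
    · have hG : ∀ i, Tendsto (fun t : ℂ => g i (ω i * t ^ m i)) (𝓝 0) (𝓝 (ρ i)) := by
        intro i
        have h1 := (hga i).continuousAt.tendsto
        rw [hg0 i] at h1
        exact h1.comp (tendsto_mono (hm i) (ω i))
      have h1 : Tendsto (fun t : ℂ => g i (ω i * t ^ m i) - g j (ω j * t ^ m j)) (𝓝 0)
          (𝓝 (ρ i - ρ j)) := (hG i).sub (hG j)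
      filter_upwards [h1.eventually_ne (sub_ne_zero.2 hρ)] with t ht _
      exact sub_ne_zero.1 ht
  have hlow : ∀ (σ : ℝ), σ ≠ 0 → ∃ J : ℕ, ∀ ω : Fin n → ℂ, (∀ i, ω i ^ k i = (σ : ℂ)) →
      (∀ i j, i ≠ j → ρ i = ρ j → ω i ≠ ω j) →
      ∀ t : ℝ, 0 < t → t < 1 / (J + 1) →
      t ^ J / (J + 1) ≤ ‖MvPolynomial.aeval (Pt b σ N g ω m t) P‖ := by
    intro σ hσ
    have hfin := finite_omega hk (σ : ℂ)
    have hex : ∀ ω : Fin n → ℂ, ∃ j : ℕ, (∀ i, ω i ^ k i = (σ : ℂ)) →
        (∀ i j, i ≠ j → ρ i = ρ j → ω i ≠ ω j) → ∀ t : ℝ, 0 < t →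
        t < 1 / (j + 1) → t ^ j / (j + 1) ≤ ‖MvPolynomial.aeval (Pt b σ N g ω m t) P‖ := by
      intro ω
      by_cases hω : (∀ i, ω i ^ k i = (σ : ℂ)) ∧ (∀ i j, i ≠ j → ρ i = ρ j → ω i ≠ ω j)
      · obtain ⟨j, hj⟩ := lower (h := fun t => MvPolynomial.aeval (Pt b σ N g ω m t) P)
          (AnalyticAt.aeval_mvPolynomial (fun o => analyticAt_Pt (b : ℂ) (σ : ℂ) N hga ω hm o) P)
          (not_ev hN1 hm hkm hga hg0 (fun i => (h i).1) (fun i => (hz i).mono fun u hu => hu.1)
            hσ hω.1 (hsep ω hω.2) hP)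
        exact ⟨j, fun _ _ => hj⟩
      · exact ⟨0, fun h1 h2 => absurd ⟨h1, h2⟩ hω⟩
    choose j hj using hex
    obtain ⟨J, hJ⟩ := (hfin.image j).bddAbove
    refine ⟨J, fun ω hω hω2 t ht0 ht1 => ?_⟩
    exact lower_mono (hJ ⟨ω, hω, rfl⟩) (hj ω hω hω2 t) ht0 ht1
  obtain ⟨J₁, hJ₁⟩ := hlow 1 one_ne_zero
  obtain ⟨J₂, hJ₂⟩ := hlow (-1) (by norm_num)
  set J : ℕ := max J₁ J₂ with hJ
  have hball : ∃ δ : ℝ, 0 < δ ∧ ∀ i, ∀ s : ℂ, ‖s - ρ i‖ < δ →
      riemannZeta s = b + χ i s ^ k i ∧ g i (χ i s) = s := by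
    have h1 : ∀ i, ∃ δ : ℝ, 0 < δ ∧ ∀ s : ℂ, ‖s - ρ i‖ < δ →
        riemannZeta s = b + χ i s ^ k i ∧ g i (χ i s) = s := by
      intro i
      obtain ⟨δ, hδ, hb⟩ := Metric.eventually_nhds_iff.1 (hχ i)
      exact ⟨δ, hδ, fun s hs => hb (by rwa [dist_eq_norm])⟩
    choose δ hδ hb using h1
    obtain ⟨δ', hδ', hle⟩ : ∃ δ' : ℝ, 0 < δ' ∧ ∀ i, δ' ≤ δ i := by
      rcases isEmpty_or_nonempty (Fin n) with he | he
      · exact ⟨1, one_pos, fun i => (he.false i).elim⟩
      · obtain ⟨i₀, hi₀⟩ := Finite.exists_min δ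
        exact ⟨δ i₀, hδ i₀, hi₀⟩
    exact ⟨δ', hδ', fun i s hs => hb i s (hs.trans_le (hle i))⟩
  obtain ⟨δ, hδ, hb⟩ := hball
  have hJpos : (0:ℝ) < (J:ℝ) + 1 := by positivity
  refine ⟨min δ ((1 / ((J:ℝ) + 1)) ^ N), 1 / ((J:ℝ) + 1), J, lt_min hδ (by positivity),
    by positivity, ?_⟩
  intro a ha0 haε s hsinj hs
  have hab : a - b ≠ 0 := sub_ne_zero.2 ha0
  have habs : 0 < |a - b| := abs_pos.2 hab
  have hN0 : N ≠ 0 := by omega
  set t : ℝ := |a - b| ^ ((N : ℝ)⁻¹) with ht
  have ht0 : 0 < t := Real.rpow_pos_of_pos habs _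
  have htN : t ^ N = |a - b| := Real.rpow_inv_natCast_pow habs.le hN0
  have htlt : t < 1 / ((J:ℝ) + 1) := by
    by_contra hcon
    push Not at hcon
    have h1 : (1 / ((J:ℝ) + 1)) ^ N ≤ t ^ N := pow_le_pow_left₀ (by positivity) hcon N
    rw [htN] at h1
    exact absurd (haε.trans_le (min_le_right _ _)) (not_lt.2 h1)
  have ht1 : t ≤ 1 := by
    refine htlt.le.trans ?_
    rw [div_le_one hJpos]
    have : (0:ℝ) ≤ J := Nat.cast_nonneg J
    linarith
  set σ : ℝ := (a - b) / |a - b| with hσdef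
  have hσa : b + σ * t ^ N = a := by
    rw [htN, hσdef, div_mul_cancel₀ _ habs.ne']
    ring
  have hloc : ∀ i, riemannZeta (s i) = b + χ i (s i) ^ k i ∧ g i (χ i (s i)) = s i := fun i =>
    hb i (s i) ((hs i).1.trans_le (min_le_left _ _))
  have htC : (t : ℂ) ≠ 0 := by exact_mod_cast ht0.ne'
  set ω : Fin n → ℂ := fun i => χ i (s i) / (t : ℂ) ^ m i with hω
  have hωt : ∀ i, ω i * (t : ℂ) ^ m i = χ i (s i) := fun i =>
    div_mul_cancel₀ _ (pow_ne_zero _ htC)
  have hωk : ∀ i, ω i ^ k i = (σ : ℂ) := by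
    intro i
    have h1 : χ i (s i) ^ k i = (a : ℂ) - b := by
      rw [← (hs i).2, (hloc i).1]
      ring
    rw [hω]
    simp only
    rw [div_pow, h1, ← pow_mul, hkm i, hσdef, ← Complex.ofReal_pow, htN]
    push_cast
    rfl
  have hωd : ∀ i j, i ≠ j → ρ i = ρ j → ω i ≠ ω j := by
    intro i j hij hρ hcon
    have hqq : q i = q j := Subtype.ext hρ
    have hgg : g i = g j := by rw [hgdef]; simp only [hqq]
    have hkk : k i = k j := by rw [hkdef]; simp only [hqq]
    have hmm : m i = m j := by rw [hmdef]; simp only [hkk]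
    have h1 : χ i (s i) = χ j (s j) := by rw [← hωt i, ← hωt j, hcon, hmm]
    apply hij
    apply hsinj
    rw [← (hloc i).2, ← (hloc j).2, hgg, h1]
  have key : t ^ J / ((J:ℝ) + 1) ≤ ‖MvPolynomial.aeval (Pt b σ N g ω m t) P‖ := by
    rcases abs_cases (a - b) with ⟨h1, h2⟩ | ⟨h1, h2⟩
    · have hσ1 : σ = 1 := by
        rw [hσdef, h1, div_self hab]
      rw [hσ1] at hωk ⊢
      exact lower_mono (le_max_left _ _) (hJ₁ ω hωk hωd t) ht0 htlt
    · have hσ1 : σ = -1 := by
        rw [hσdef, h1, div_neg, div_self hab]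
      rw [hσ1] at hωk ⊢
      exact lower_mono (le_max_right _ _) (hJ₂ ω hωk hωd t) ht0 htlt
  have hval : MvPolynomial.aeval (Pt b σ N g ω m t) P =
      ((MvPolynomial.eval (fun o : Option (Fin n × Bool) =>
        o.elim a (fun p => if p.2 then (s p.1).re else (s p.1).im)) P : ℝ) : ℂ) := by
    rw [Pt_real, aeval_ofReal]
    congr 3
    funext o
    rcases o with _ | ⟨i, c⟩
    · exact hσa
    · simp only [Option.elim_some]
      rw [hωt i, (hloc i).2]
  rw [hval, Complex.norm_real, Real.norm_eq_abs] at key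
  refine le_trans ?_ key
  have h5 : |a - b| ^ J ≤ t ^ J := by
    refine pow_le_pow_left₀ habs.le ?_ J
    rw [← htN]
    calc t ^ N ≤ t ^ 1 := pow_le_pow_of_le_one ht0.le ht1 hN1
      _ = t := pow_one t
  calc 1 / ((J:ℝ) + 1) * |a - b| ^ J ≤ 1 / ((J:ℝ) + 1) * t ^ J :=
        mul_le_mul_of_nonneg_left h5 (by positivity)
    _ = t ^ J / ((J:ℝ) + 1) := by ring

/-- The global theorem: for the points in a compact set. -/
theorem isolated (b : ℝ) {P : MvPolynomial (Option (Fin n × Bool)) ℝ} (hP : P ≠ 0)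
    {K : Set ℂ} (hK : IsCompact K) (hKim : ∀ s ∈ K, 0 < s.im) :
    ∃ (ε c : ℝ) (κ : ℕ), 0 < ε ∧ 0 < c ∧ ∀ a : ℝ, a ≠ b → |a - b| < ε → ∀ s : Fin n → ℂ,
      Function.Injective s → (∀ i, s i ∈ K ∧ riemannZeta (s i) = a) →
      c * |a - b| ^ κ ≤ |MvPolynomial.eval (fun o : Option (Fin n × Bool) =>
        o.elim a (fun p => if p.2 then (s p.1).re else (s p.1).im)) P| := by
  set Pr : Set (Fin n → ℂ) → Prop := fun S => ∃ (ε c : ℝ) (κ : ℕ), 0 < ε ∧ 0 < c ∧
    ∀ a : ℝ, a ≠ b → |a - b| < ε → ∀ s ∈ S,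
      Function.Injective s → (∀ i, riemannZeta (s i) = a) →
      c * |a - b| ^ κ ≤ |MvPolynomial.eval (fun o : Option (Fin n × Bool) =>
        o.elim a (fun p => if p.2 then (s p.1).re else (s p.1).im)) P| with hPr
  have hKn : IsCompact (Set.univ.pi (fun _ : Fin n => K)) := isCompact_univ_pi fun _ => hK
  have main : Pr (Set.univ.pi (fun _ : Fin n => K)) := by
    refine hKn.induction_on (p := Pr) ?_ ?_ ?_ ?_
    · exact ⟨1, 1, 0, one_pos, one_pos, fun a _ _ s hs => absurd hs (Set.notMem_empty s)⟩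
    · rintro S S' hSS ⟨ε, c, κ, hε, hc, H⟩
      exact ⟨ε, c, κ, hε, hc, fun a h1 h2 s hs => H a h1 h2 s (hSS hs)⟩
    · rintro S S' ⟨ε, c, κ, hε, hc, H⟩ ⟨ε', c', κ', hε', hc', H'⟩
      refine ⟨min (min ε ε') 1, min c c', max κ κ', lt_min (lt_min hε hε') one_pos,
        lt_min hc hc', ?_⟩
      intro a h1 h2 s hs h3 h4
      have ha1 : |a - b| ≤ 1 := h2.le.trans (min_le_right _ _)
      have haε : |a - b| < ε := h2.trans_le ((min_le_left _ _).trans (min_le_left _ _))
      have haε' : |a - b| < ε' := h2.trans_le ((min_le_left _ _).trans (min_le_right _ _))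
      rcases hs with hs | hs
      · refine le_trans ?_ (H a h1 haε s hs h3 h4)
        exact mul_le_mul (min_le_left _ _)
          (pow_le_pow_of_le_one (abs_nonneg _) ha1 (le_max_left _ _)) (by positivity) hc.le
      · refine le_trans ?_ (H' a h1 haε' s hs h3 h4)
        exact mul_le_mul (min_le_right _ _)
          (pow_le_pow_of_le_one (abs_nonneg _) ha1 (le_max_right _ _)) (by positivity) hc'.le
    · intro x hx
      have hxK : ∀ i, x i ∈ K := fun i => hx i (Set.mem_univ i)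
      by_cases hall : ∀ i, riemannZeta (x i) = b
      · obtain ⟨ε, c, κ, hε, hc, H⟩ := isolated_local (b := b) (ρ := x)
          (fun i => ⟨hKim _ (hxK i), hall i⟩) hP
        refine ⟨Metric.ball x ε, mem_nhdsWithin_of_mem_nhds (Metric.ball_mem_nhds x hε),
          ε, c, κ, hε, hc, ?_⟩
        intro a h1 h2 s hs h3 h4
        refine H a h1 h2 s h3 fun i => ⟨?_, h4 i⟩
        rw [← dist_eq_norm]
        exact (dist_le_pi_dist s x i).trans_lt hs
      · push Not at hall
        obtain ⟨i, hi⟩ := hall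
        have hne : x i ≠ 1 := by
          intro h
          have := hKim _ (hxK i)
          rw [h, Complex.one_im] at this
          exact lt_irrefl _ this
        have hpos : 0 < ‖riemannZeta (x i) - b‖ := norm_pos_iff.2 (sub_ne_zero.2 hi)
        have hcont : ContinuousAt (fun s : Fin n → ℂ => ‖riemannZeta (s i) - b‖) x := by
          have h1 : ContinuousAt riemannZeta (x i) := (an_zeta hne).continuousAt
          have h2 : ContinuousAt (fun s : Fin n → ℂ => riemannZeta (s i)) x :=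
            ContinuousAt.comp' (f := fun s : Fin n → ℂ => s i) h1 (continuous_apply i).continuousAt
          exact (h2.sub continuousAt_const).norm
        have hev := hcont.eventually_const_lt (half_lt_self hpos)
        refine ⟨{s : Fin n → ℂ | ‖riemannZeta (x i) - b‖ / 2 < ‖riemannZeta (s i) - b‖},
          mem_nhdsWithin_of_mem_nhds hev, ‖riemannZeta (x i) - b‖ / 2, 1, 0, half_pos hpos,
          one_pos, ?_⟩
        intro a h1 h2 s hs h3 h4
        exfalso
        have h5 : ‖riemannZeta (x i) - b‖ / 2 < ‖riemannZeta (s i) - b‖ := hs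
        rw [h4 i, ← Complex.ofReal_sub, Complex.norm_real, Real.norm_eq_abs] at h5
        exact lt_asymm h2 h5
  obtain ⟨ε, c, κ, hε, hc, H⟩ := main
  exact ⟨ε, c, κ, hε, hc, fun a h1 h2 s h3 h4 =>
    H a h1 h2 s (fun i _ => (h4 i).1) h3 fun i => (h4 i).2⟩

end Pool.Agent.K4H48.IR
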